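import Mathlib

set_option autoImplicit false
set_option linter.unusedSectionVars false

namespace Pool.Agent.H.MP_6fa8f6_an

open Filter Topology Set

variable {X Y : Type} [TopologicalSpace X] [TopologicalSpace Y] [CompactSpace X] [CompactSpace Y]
  {J : Type}

def St (X : Type) [TopologicalSpace X] [CompactSpace X] : Set (WeakDual ℝ C(X, ℝ)) :=
  {ψ | ψ 1 = 1 ∧ ∀ f : C(X, ℝ), (∀ x, 0 ≤ f x) → 0 ≤ ψ f}

lemma St.le {ψ : WeakDual ℝ C(X, ℝ)} (h : ψ ∈ St X) {f : C(X, ℝ)} {a : ℝ} (k : ∀ x, f x ≤ a) :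
    ψ f ≤ a := by
  have := h.2 (a • 1 - f) fun x => by simpa using k x
  rw [map_sub, map_smul, h.1] at this
  simpa using this

lemma St.abs {ψ : WeakDual ℝ C(X, ℝ)} (h : ψ ∈ St X) (f : C(X, ℝ)) : |ψ f| ≤ ‖f‖ := by
  have k := fun x => abs_le.1 (f.norm_coe_le_norm x)
  have := St.le h (f := -f) (a := ‖f‖) fun x => by simpa using neg_le.1 (k x).1
  rw [map_neg] at this
  exact abs_le.2 ⟨by linarith, St.le h fun x => (k x).2⟩

lemma ev (f : C(X, ℝ)) : Continuous fun ψ : WeakDual ℝ C(X, ℝ) => ψ f := WeakDual.eval_continuous f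

lemma St.compact : IsCompact (St X) := by
  refine (WeakDual.isCompact_closedBall (0 : StrongDual ℝ C(X, ℝ)) 1).of_isClosed_subset ?_
    fun ψ h => ?_
  · simp only [St, ofPred_and, ofPred_forall]
    exact (isClosed_eq (ev _) continuous_const).inter (isClosed_iInter fun f => isClosed_iInter
      fun _ => isClosed_le continuous_const (ev _))
  · exact mem_closedBall_zero_iff.2 (ContinuousLinearMap.opNorm_le_bound _ zero_le_one fun f => by
      simpa using St.abs h f)

instance : CompactSpace (St X) := isCompact_iff_compactSpace.1 St.compact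

noncomputable def cp (h : C(X, Y)) : C(Y, ℝ) →L[ℝ] C(X, ℝ) :=
  LinearMap.mkContinuous
    { toFun := fun f => f.comp h
      map_add' := fun _ _ => rfl
      map_smul' := fun _ _ => rfl } 1 fun f => by
    rw [one_mul]
    exact (ContinuousMap.norm_le _ (norm_nonneg _)).2 fun _ => f.norm_coe_le_norm _

@[simp] lemma cp_apply (h : C(X, Y)) (f : C(Y, ℝ)) : cp h f = f.comp h := rfl

noncomputable def push (h : C(X, Y)) (ψ : WeakDual ℝ C(X, ℝ)) : WeakDual ℝ C(Y, ℝ) :=
  StrongDual.toWeakDual ((WeakDual.toStrongDual ψ).comp (cp h))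

@[simp] lemma push_apply (h : C(X, Y)) (ψ : WeakDual ℝ C(X, ℝ)) (f : C(Y, ℝ)) :
    push h ψ f = ψ (f.comp h) := rfl

lemma St.push (h : C(X, Y)) {ψ : WeakDual ℝ C(X, ℝ)} (k : ψ ∈ St X) : push h ψ ∈ St Y :=
  ⟨k.1, fun _ hf => k.2 _ fun _ => hf _⟩

noncomputable def dl (x : X) : St X :=
  ⟨StrongDual.toWeakDual (ContinuousMap.evalCLM ℝ x), rfl, fun _ h => h x⟩

@[simp] lemma dl_apply (x : X) (f : C(X, ℝ)) : (dl x).1 f = f x := rfl

lemma dlc : Continuous (dl : X → St X) :=
  Continuous.subtype_mk (WeakDual.continuous_of_continuous_eval fun f => f.continuous) _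

noncomputable def mon (S : Finset J) : C(J → Bool, ℝ) :=
  ⟨fun σ => ∏ j ∈ S, if σ j then 1 else 0, continuous_finsetProd _ fun j _ =>
    (continuous_of_discreteTopology (f := fun b : Bool => if b then (1 : ℝ) else 0)).comp
      (continuous_apply j)⟩

lemma mon_apply (S : Finset J) (σ : J → Bool) : mon S σ = ∏ j ∈ S, if σ j then 1 else 0 := rfl

lemma dense (co : C(X, J → Bool)) (hc : Function.Injective co) (V : Submodule ℝ C(X, ℝ))
    (hV : IsClosed (V : Set C(X, ℝ))) (h : ∀ S, (mon S).comp co ∈ V) (f : C(X, ℝ)) : f ∈ V := by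
  classical
  set A := Algebra.adjoin ℝ (range fun S : Finset J => (mon S).comp co)
  have := ContinuousMap.continuousMap_mem_subalgebra_closure_of_separatesPoints A (fun x y hxy => by
    obtain ⟨j, hj⟩ := Function.ne_iff.1 (hc.ne hxy)
    refine ⟨_, ⟨(mon {j}).comp co, Algebra.subset_adjoin ⟨_, rfl⟩, rfl⟩, ?_⟩
    simp only [mon_apply, ContinuousMap.comp_apply, Finset.prod_singleton]
    cases h1 : co x j <;> cases h2 : co y j <;> simp_all) f
  refine closure_minimal (fun g (hg : g ∈ A.toSubmodule) => ?_) hV this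
  rw [Algebra.adjoin_eq_span] at hg
  refine Submodule.span_le.2 (fun g hg => ?_) hg
  obtain ⟨S, rfl⟩ : ∃ S, (mon S).comp co = g := by
    induction hg using Submonoid.closure_induction with
    | mem x hx => exact hx
    | one => exact ⟨∅, rfl⟩
    | mul x y _ _ a b =>
      obtain ⟨S, rfl⟩ := a
      obtain ⟨T, rfl⟩ := b
      refine ⟨S ∪ T, ContinuousMap.ext fun x => ?_⟩
      simp only [mon_apply, ContinuousMap.comp_apply, ContinuousMap.mul_apply, Finset.prod_boole,
        Finset.forall_mem_union]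
      split_ifs <;> simp_all
  exact h S

def Cm (y : J → ℝ) : Set (J → Bool) := {σ | ∀ i, y i ≠ if σ i then 0 else 1}

instance (y : J → ℝ) : CompactSpace (Cm y) := isCompact_iff_compactSpace.1 (IsClosed.isCompact (by
  simp only [Cm, ofPred_forall]
  exact isClosed_iInter fun i => (isClosed_discrete {b : Bool | y i ≠ if b then 0 else 1}).preimage
    (continuous_apply (A := fun _ => Bool) i)))

def vl (M : Set (J → Bool)) : C(M, J → Bool) := ⟨Subtype.val, continuous_subtype_val⟩

lemma bern (y : J → ℝ) (hy : ∀ i, y i ∈ Icc (0 : ℝ) 1) :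
    ∃ ψ ∈ St (Cm y), ∀ S, ψ ((mon S).comp (vl _)) = ∏ i ∈ S, y i := by
  classical
  have key : ∀ F : Finset J, ∃ ψ ∈ St (Cm y), ∀ S ⊆ F, ψ ((mon S).comp (vl _)) = ∏ i ∈ S, y i := by
    intro F
    induction F using Finset.induction_on with
    | empty =>
      refine ⟨_, (dl ⟨fun i => decide (y i ≠ 0), fun i => ?_⟩).2, fun S hS => by
        simp [Finset.subset_empty.1 hS, mon_apply]⟩
      by_cases k : y i = 0 <;> simp [k]
    | insert i F hi ih =>
      obtain ⟨ψ, h1, h2⟩ := ih
      have : ∀ d : Bool, (y i ≠ if d then 0 else 1) → ∃ u : C(Cm y, Cm y), ∀ S, i ∉ S →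
          ((mon S).comp (vl _)).comp u = (mon S).comp (vl _) ∧ ((mon (insert i S)).comp (vl _)).comp u =
          (if d then (1 : ℝ) else 0) • (mon S).comp (vl _) := fun d hd => by
        refine ⟨⟨fun σ => ⟨Function.update σ.1 i d, fun j => ?_⟩, Continuous.subtype_mk
          (continuous_subtype_val.update i continuous_const) _⟩, fun S hS => ?_⟩
        · by_cases k : j = i
          · simpa [k] using hd
          · simpa [k] using σ.2 j
        have : ∀ σ : J → Bool, mon S (Function.update σ i d) = mon S σ := fun σ =>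
          Finset.prod_congr rfl fun j hj => by
            rw [Function.update_of_ne (by rintro rfl; exact hS hj)]
        refine ⟨ContinuousMap.ext fun σ => this _, ContinuousMap.ext fun σ => ?_⟩
        change mon _ (Function.update σ.1 i d) = _ * mon S σ.1
        rw [mon_apply, Finset.prod_insert hS, ← this, mon_apply, Function.update_self]
      obtain ⟨u0, k0⟩ := this (decide (y i = 1)) (by by_cases k : y i = 1 <;> simp [k])
      obtain ⟨u1, k1⟩ := this (decide (y i ≠ 0)) (by by_cases k : y i = 0 <;> simp [k])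
      have e : ∀ f, ((1 - y i) • push u0 ψ + y i • push u1 ψ) f =
        (1 - y i) * ψ (f.comp u0) + y i * ψ (f.comp u1) := fun _ => rfl
      refine ⟨(1 - y i) • push u0 ψ + y i • push u1 ψ, ⟨?_, fun f hf => ?_⟩, fun S hS => ?_⟩
      · rw [e]
        change _ * ψ 1 + _ * ψ 1 = 1
        simp [h1.1]
      · rw [e]
        exact add_nonneg (mul_nonneg (sub_nonneg.2 (hy i).2) (h1.2 _ fun _ => hf _))
          (mul_nonneg (hy i).1 (h1.2 _ fun _ => hf _))
      rw [e]
      by_cases k : i ∈ S
      · rw [← Finset.insert_erase k, (k0 _ (S.notMem_erase i)).2, (k1 _ (S.notMem_erase i)).2,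
          map_smul, map_smul, h2 _ (Finset.subset_insert_iff.1 hS),
          Finset.prod_insert (S.notMem_erase i)]
        by_cases a : y i = 1
        · simp [a]
        by_cases b : y i = 0 <;> simp [a, b]
      · rw [(k0 _ k).1, (k1 _ k).1, h2 _ ((Finset.subset_insert_iff_of_notMem k).1 hS)]
        ring
  obtain ⟨ψ, h1, h2⟩ := St.compact.inter_iInter_nonempty
    (fun S => {ψ | ψ ((mon S).comp (vl (Cm y))) = ∏ i ∈ S, y i})
    (fun S => isClosed_eq (ev _) continuous_const) fun u => by
      obtain ⟨ψ, h1, h2⟩ := key (u.sup id)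
      exact ⟨ψ, h1, mem_iInter₂.2 fun S hS => h2 S (Finset.le_sup (f := id) hS)⟩
  exact ⟨ψ, h1, mem_iInter.1 h2⟩

lemma avg (M : Set (J → Bool)) [CompactSpace M] (p : J → C(X, ℝ)) (hp : ∀ i x, p i x ∈ Icc (0 : ℝ) 1)
    (π : C(M, X)) (h : ∀ x, ∀ σ ∈ Cm fun i => p i x, ∃ k : σ ∈ M, π ⟨σ, k⟩ = x) :
    ∃ U : C(M, ℝ) →L[ℝ] C(X, ℝ), ∀ f, U (cp π f) = f := by
  choose β b1 b2 using fun x => bern (fun i => p i x) fun i => hp i x
  choose h1 h2 using h
  set ι : ∀ x, C(Cm fun i => p i x, M) := fun x => ⟨fun σ => ⟨σ.1, h1 x _ σ.2⟩, by fun_prop⟩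
  have b := fun x => St.abs (St.push (ι x) (b1 x))
  have c := dense (vl M) Subtype.val_injective
    { carrier := {f | Continuous fun x => push (ι x) (β x) f}
      add_mem' := fun a b => by
        simp only [mem_ofPred_eq, map_add]
        exact a.add b
      zero_mem' := by simpa only [mem_ofPred_eq, map_zero] using continuous_const
      smul_mem' := fun c _ a => by
        simp only [mem_ofPred_eq, map_smul]
        exact a.const_smul c }
    (isClosed_of_closure_subset fun f hf => continuous_of_uniform_approx_of_continuous fun u hu => by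
      obtain ⟨ε, e0, he⟩ := Metric.mem_uniformity_dist.1 hu
      obtain ⟨g, g1, g2⟩ := Metric.mem_closure_iff.1 hf ε e0
      refine ⟨_, g1, fun x => he ?_⟩
      rw [Real.dist_eq, ← map_sub]
      exact (b x _).trans_lt (by rwa [← dist_eq_norm]))
    fun S => by
      change Continuous fun x => β x ((mon S).comp (vl _))
      simp only [b2]
      fun_prop
  refine ⟨LinearMap.mkContinuous
    { toFun := fun f => ⟨_, c f⟩
      map_add' := fun _ _ => ContinuousMap.ext fun x => map_add (push (ι x) (β x)) _ _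
      map_smul' := fun _ _ => ContinuousMap.ext fun x => map_smul (push (ι x) (β x)) _ _ } 1
      fun f => by
        rw [one_mul]
        exact (ContinuousMap.norm_le _ (norm_nonneg _)).2 fun x => b x f, fun f =>
    ContinuousMap.ext fun x => ?_⟩
  change β x ((f.comp π).comp (ι x)) = f x
  rw [show (f.comp π).comp (ι x) = f x • 1 from ContinuousMap.ext fun σ =>
    (congrArg f (h2 x _ σ.2)).trans (mul_one _).symm, map_smul, (b1 x).1]
  simp

end Pool.Agent.H.MP_6fa8f6_an
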