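import Pool.Agent.H.MP_6fa8f6_an.A

set_option autoImplicit false
set_option linter.unusedSectionVars false

namespace Pool.Agent.H.MP_6fa8f6_an

open Filter Topology Set

lemma absorb {S B X : Type} [TopologicalSpace S] [CompactSpace S] [NormedAddCommGroup B]
    [NormedSpace ℝ B] [CompleteSpace B] [NormedAddCommGroup X] [NormedSpace ℝ X] [CompleteSpace X]
    (s0 : S) (t r : C(S, S)) (χ : C(S, ℝ)) (h1 : ∀ s, χ (t s) = 0) (h2 : ∀ s, r (t s) = s)
    (h3 : χ s0 = 1) (h4 : ∀ s, s = s0 ∨ χ s = 0 ∧ t (r s) = s) (j : X →L[ℝ] B) (U : B →L[ℝ] X)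
    (h : ∀ x, U (j x) = x) : Nonempty (C(S, B) ≃L[ℝ] X × C(S, B)) := by
  set P := (j ∘L U).compLeftContinuous ℝ S
  set F := (U ∘L ContinuousMap.evalCLM ℝ s0).prod
    (.id ℝ _ - P + P ∘L ContinuousMap.compCLM ℝ B t)
  have e1 : ∀ f, (F f).1 = U (f s0) := fun _ => rfl
  have e2 : ∀ f s, (F f).2 s = f s - j (U (f s)) + j (U (f (t s))) := fun _ _ => rfl
  refine ⟨.ofBijective F (LinearMap.ker_eq_bot'.2 fun f (hf : F f = 0) => ?_)
    (LinearMap.range_eq_top.2 fun z => ?_)⟩
  · have a : U (f s0) = 0 := by rw [← e1, hf]; rfl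
    have b : ∀ s, f s - j (U (f s)) + j (U (f (t s))) = 0 := fun s => by rw [← e2, hf]; rfl
    have c : ∀ s, U (f (t s)) = 0 := fun s => by simpa [h] using congrArg U (b s)
    ext s
    have d : U (f s) = 0 := by
      rcases h4 s with k | k
      exacts [k ▸ a, k.2 ▸ c _]
    simpa [c, d] using b s
  · refine ⟨⟨fun s => z.2 s - j (U (z.2 s)) + χ s • j z.1 + (1 - χ s) • j (U (z.2 (r s))),
      by fun_prop⟩, Prod.ext ((e1 _).trans ?_) (ContinuousMap.ext fun s => (e2 _ _).trans ?_)⟩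
    · simp [h, h3]
    · simp [h, h1, h2]

variable {Γ I : Type}

def SS (Γ : Type) : Set (Γ → Bool) := {σ | ∀ i j, σ i → σ j → i = j}

instance : CompactSpace (SS Γ) := isCompact_iff_compactSpace.1 (IsClosed.isCompact (by
  simp only [SS, ofPred_forall]
  refine isClosed_iInter fun i => isClosed_iInter fun j => ?_
  exact (isClosed_discrete {b : Bool × Bool | b.1 → b.2 → i = j}).preimage
    (f := fun σ : Γ → Bool => (σ i, σ j)) (by fun_prop)))

lemma absorb' (e : Γ ≃ Option Γ) {B X : Type} [NormedAddCommGroup B]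
    [NormedSpace ℝ B] [CompleteSpace B] [NormedAddCommGroup X] [NormedSpace ℝ X] [CompleteSpace X]
    (j : X →L[ℝ] B) (U : B →L[ℝ] X)
    (h : ∀ x, U (j x) = x) : Nonempty (C(SS Γ, B) ≃L[ℝ] X × C(SS Γ, B)) := by
  classical
  refine absorb ⟨fun γ => decide (e γ = none), fun i j a b => e.injective (by simp_all)⟩
    ⟨fun σ => ⟨fun γ => (e γ).elim false σ.1, fun i j a b => e.injective ?_⟩,
      Continuous.subtype_mk (continuous_pi fun γ => ?_) _⟩
    ⟨fun σ => ⟨fun γ => σ.1 (e.symm (some γ)), fun i j a b => by simpa using σ.2 _ _ a b⟩,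
      Continuous.subtype_mk (show Continuous fun (σ : SS Γ) γ => σ.1 (e.symm (some γ)) from
        continuous_pi fun γ => (continuous_apply (e.symm (some γ))).comp continuous_subtype_val) _⟩
    ((mon {e.symm none}).comp (vl _)) (fun s => by simp [mon_apply, vl])
    (fun s => Subtype.ext (funext fun _ => by simp))
    (by simp [mon_apply, vl]) (fun s => ?_) j U h
  · cases h1 : e i <;> cases h2 : e j <;> simp only [h1, h2, Option.elim] at a b <;> simp at a b ⊢
    exact σ.2 _ _ a b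
  · cases e γ
    · exact continuous_const
    · exact (continuous_apply _).comp continuous_subtype_val
  · cases k : s.1 (e.symm none)
    · refine .inr ⟨by simp [mon_apply, vl, k], Subtype.ext (funext fun γ => ?_)⟩
      obtain ⟨a, rfl⟩ := e.symm.surjective γ
      cases a <;> simp [k]
    · refine .inl (Subtype.ext (funext fun γ => ?_))
      obtain ⟨a, rfl⟩ := e.symm.surjective γ
      cases a with
      | none => simp [k]
      | some a =>
        have : ¬ s.1 (e.symm (some a)) := fun k' => by simpa using s.2 _ _ k k'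
        simpa using this

lemma pel (e : Γ ≃ Option Γ) {M X : Type} [TopologicalSpace M] [CompactSpace M] [T2Space M]
    [NormedAddCommGroup X] [NormedSpace ℝ X] [CompleteSpace X]
    (j : X →L[ℝ] C(M, ℝ)) (U : C(M, ℝ) →L[ℝ] X) (h : ∀ x, U (j x) = x)
    (E : C(SS Γ × M, ℝ) →L[ℝ] X) (R : X →L[ℝ] C(SS Γ × M, ℝ)) (k : ∀ x, R (E x) = x) :
    Nonempty (X ≃L[ℝ] C(SS Γ × M, ℝ)) := by
  let c : C(SS Γ × M, ℝ) ≃L[ℝ] C(SS Γ, C(M, ℝ)) :=
    { toFun := ContinuousMap.curry
      invFun := ContinuousMap.uncurry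
      map_add' := fun _ _ => rfl
      map_smul' := fun _ _ => rfl
      left_inv := fun _ => rfl
      right_inv := fun _ => rfl
      continuous_toFun := Homeomorph.curry.continuous
      continuous_invFun := Homeomorph.curry.symm.continuous }
  obtain ⟨a⟩ := absorb' e j U h
  obtain ⟨b⟩ := absorb' e (j ∘L E) (R ∘L U) (by simp [h, k])
  let d := ContinuousLinearEquiv.equivOfRightInverse R E k
  exact ⟨d.trans (((c.trans (b.trans ((ContinuousLinearEquiv.prodComm ..).trans
    (.prodCongr (.refl ..) (.refl ..))))).prodCongr (.refl ..)).trans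
    ((ContinuousLinearEquiv.prodAssoc ..).trans (((ContinuousLinearEquiv.refl ..).prodCongr
      d.symm).trans ((ContinuousLinearEquiv.prodComm ..).trans (a.symm.trans c.symm)))))⟩

noncomputable def u (n : ℕ) : ℝ := 1 / 2 / 2 ^ n / (n.unpair.2 + 1)

lemma u0 (n : ℕ) : 0 < u n := by
  unfold u
  positivity

def v (n : ℕ) (t : ℝ) : ℝ := (n.unpair.2 + 1) * t - (n.unpair.1 + 1)

variable {J : Type} (q : I ≃ J × ℕ)

def Cp (σ : I → Bool) (x : J → ℝ) : Prop :=
  ∀ i, if σ i then 0 ≤ v (q i).2 (x (q i).1) else v (q i).2 (x (q i).1) ≤ 1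

def Good (σ : I → Bool) : Prop := ∀ F : Finset I, ∑ i ∈ F, u (q i).2 * (if σ i then 1 else 0) ≤ 1

lemma Cp.good {σ : I → Bool} {x : J → ℝ} (h : Cp q σ x) (h0 : ∀ j, 0 ≤ x j)
    (h1 : ∀ T : Finset J, ∑ j ∈ T, x j ≤ 1) : Good q σ := fun F => by
  classical
  set G := F.map q.toEmbedding
  calc _ ≤ ∑ i ∈ F, x (q i).1 * (1 / 2 / 2 ^ (q i).2) := Finset.sum_le_sum fun i _ => ?_
    _ = ∑ z ∈ G, x z.1 * (1 / 2 / 2 ^ z.2) := by rw [Finset.sum_map]; rfl
    _ ≤ ∑ z ∈ G.image Prod.fst ×ˢ G.image Prod.snd, x z.1 * (1 / 2 / 2 ^ z.2) :=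
      Finset.sum_le_sum_of_subset_of_nonneg Finset.subset_product fun z _ _ =>
        mul_nonneg (h0 _) (by positivity)
    _ ≤ 1 := by
      rw [Finset.sum_product' (f := fun a (b : ℕ) => x a * (1 / 2 / 2 ^ b)), ← Finset.sum_mul_sum]
      exact mul_le_one₀ (h1 _) (by positivity)
        (sum_le_hasSum _ (fun _ _ => by positivity) (hasSum_geometric_two' 1))
  have := h i
  have := h0 (q i).1
  split_ifs at * with k
  · rw [mul_one, u, div_le_iff₀ (by positivity), mul_right_comm]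
    refine le_mul_of_one_le_left (by positivity) ?_
    unfold v at *
    have : (0 : ℝ) ≤ (q i).2.unpair.1 := by positivity
    linarith
  · rw [mul_zero]
    positivity

lemma Cp.uniq {σ : I → Bool} {x y : J → ℝ} (h : Cp q σ x) (k : Cp q σ y) (h0 : ∀ j, 0 ≤ x j)
    (k0 : ∀ j, 0 ≤ y j) : x = y := by
  have key : ∀ x y : J → ℝ, Cp q σ x → Cp q σ y → (∀ j, 0 ≤ x j) → ∀ j, y j ≤ x j :=
    fun x y h k h0 j => le_of_not_gt fun hc => by
    obtain ⟨m, hm⟩ := exists_nat_gt (3 / (y j - x j))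
    rw [div_lt_iff₀ (sub_pos.2 hc)] at hm
    have a := h (q.symm (j, Nat.pair ⌊(m + 1) * x j⌋₊ m))
    have b := k (q.symm (j, Nat.pair ⌊(m + 1) * x j⌋₊ m))
    have c := Nat.lt_floor_add_one ((m + 1) * x j)
    have d := Nat.floor_le (mul_nonneg (by positivity : (0 : ℝ) ≤ m + 1) (h0 j))
    simp only [v, Equiv.apply_symm_apply, Nat.unpair_pair] at a b
    split_ifs at a b <;> nlinarith
  exact funext fun j => le_antisymm (key _ _ k h k0 j) (key _ _ h k h0 j)

lemma Cp.closed {X : Type} [TopologicalSpace X] {σ : X → I → Bool} {x : X → J → ℝ}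
    (hσ : Continuous σ) (hx : ∀ j, Continuous fun z => x z j) : IsClosed {z | Cp q (σ z) (x z)} := by
  simp only [Cp, ofPred_forall]
  refine isClosed_iInter fun i => ?_
  have : {z | if σ z i then 0 ≤ v (q i).2 (x z (q i).1) else v (q i).2 (x z (q i).1) ≤ 1} =
      {z | σ z i = true} ∩ {z | 0 ≤ v (q i).2 (x z (q i).1)} ∪
        {z | σ z i = false} ∩ {z | v (q i).2 (x z (q i).1) ≤ 1} := Set.ext fun z => by
    cases h : σ z i <;> simp [h]
  rw [this]
  unfold v
  exact ((isClosed_eq (by fun_prop) continuous_const).inter (isClosed_le continuous_const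
    (by fun_prop))).union ((isClosed_eq (by fun_prop) continuous_const).inter
      (isClosed_le (by fun_prop) continuous_const))

lemma hil {X : Type} [TopologicalSpace X] (x : X → J → ℝ) (hx : ∀ j, Continuous fun z => x z j)
    (h0 : ∀ z j, 0 ≤ x z j) (h1 : ∀ z (T : Finset J), ∑ j ∈ T, x z j ≤ 1) :
    ∃ Ψ : X → WeakSpace ℝ (lp (fun _ : J => ℝ) 2), Continuous Ψ ∧
      ∀ z j, (toWeakSpace ℝ _).symm (Ψ z) j = x z j := by
  classical
  have a : ∀ z (T : Finset J), ∑ j ∈ T, ‖x z j‖ ^ (2 : ENNReal).toReal ≤ 1 := fun z T =>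
    (Finset.sum_le_sum fun j _ => by
      have := h0 z j
      have : x z j ≤ 1 := by simpa using h1 z {j}
      simp only [Real.norm_eq_abs, ENNReal.toReal_ofNat, Real.rpow_ofNat, sq_abs]
      nlinarith).trans (h1 z T)
  set Ψ : X → lp (fun _ : J => ℝ) 2 := fun z => ⟨x z, memℓp_gen' (a z)⟩
  have b : ∀ z, ‖Ψ z‖ ≤ 1 := fun z => lp.norm_le_of_forall_sum_le (by simp) zero_le_one (by
    simpa only [Real.one_rpow] using a z)
  refine ⟨fun z => toWeakSpace ℝ _ (Ψ z), WeakBilin.continuous_of_continuous_eval _ fun φ => ?_,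
    fun _ _ => rfl⟩
  obtain ⟨y, rfl⟩ := (InnerProductSpace.toDual ℝ _).surjective φ
  change Continuous fun z => inner ℝ y (Ψ z)
  refine continuous_of_uniform_approx_of_continuous fun u hu => ?_
  obtain ⟨ε, e0, he⟩ := Metric.mem_uniformity_dist.1 hu
  obtain ⟨T, hT⟩ := (Metric.tendsto_nhds.1 (lp.hasSum_single (by simp) y) ε e0).exists
  refine ⟨fun z => inner ℝ (∑ j ∈ T, lp.single 2 j (y j)) (Ψ z), ?_, fun z => he ?_⟩
  · simp only [sum_inner, lp.inner_single_left]
    exact continuous_finsetSum _ fun j _ => continuous_const.inner (hx j)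
  · rw [Real.dist_eq, ← inner_sub_left]
    refine (abs_real_inner_le_norm _ _).trans_lt ((mul_le_of_le_one_right (norm_nonneg _)
      (b z)).trans_lt ?_)
    rwa [← dist_eq_norm, dist_comm]

end Pool.Agent.H.MP_6fa8f6_an
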