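import Pool.Agent.H.MP_6fa8f6_an.B

set_option autoImplicit false
set_option linter.unusedSectionVars false

namespace Pool.Agent.H.MP_6fa8f6_an

open Filter Topology Set TopologicalSpace

variable {Γ I : Type} (q : I ≃ Finset (Γ ⊕ I) × ℕ)

instance (M : Closeds (I → Bool)) : CompactSpace M := isCompact_iff_compactSpace.1 M.2.isCompact

def co (M : Closeds (I → Bool)) : C(SS Γ × M, Γ ⊕ I → Bool) :=
  ⟨fun z => Sum.elim z.1.1 z.2.1, continuous_pi fun j => by
    cases j with
    | inl j => exact (continuous_apply j).comp (continuous_subtype_val.comp continuous_fst)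
    | inr j => exact (continuous_apply j).comp (continuous_subtype_val.comp continuous_snd)⟩

lemma coi (M : Closeds (I → Bool)) : Function.Injective (co (Γ := Γ) M) := fun _ _ h =>
  Prod.ext (Subtype.ext (funext fun i => congrFun h (.inl i)))
    (Subtype.ext (funext fun i => congrFun h (.inr i)))

noncomputable def w : Γ ⊕ I → ℝ := Sum.elim 1 fun i => u (q i).2

lemma w0 (j : Γ ⊕ I) : 0 < w q j := by
  cases j
  exacts [one_pos, u0 _]

noncomputable def W (S : Finset (Γ ⊕ I)) : ℝ :=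
  if S.card = 0 then 0 else Real.exp (-2) * ∏ j ∈ S, w q j

lemma W0 (S : Finset (Γ ⊕ I)) : 0 < Real.exp (-2) * ∏ j ∈ S, w q j :=
  mul_pos (Real.exp_pos _) (Finset.prod_pos fun _ _ => w0 q _)

lemma W1 (S : Finset (Γ ⊕ I)) : 0 ≤ W q S := by
  unfold W
  split_ifs
  exacts [le_rfl, (W0 q S).le]

noncomputable def x {M : Closeds (I → Bool)} (ψ : St (SS Γ × M)) (S : Finset (Γ ⊕ I)) : ℝ :=
  ψ.1 (W q S • (mon S).comp (co M))

lemma mon0 {J : Type} (S : Finset J) (σ : J → Bool) : 0 ≤ mon S σ :=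
  Finset.prod_nonneg fun _ _ => by positivity

variable {M : Closeds (I → Bool)}

lemma x0 (ψ : St (SS Γ × M)) (S : Finset (Γ ⊕ I)) : 0 ≤ x q ψ S :=
  ψ.2.2 _ fun _ => mul_nonneg (W1 q S) (mon0 _ _)

lemma xc (S : Finset (Γ ⊕ I)) : Continuous fun ψ : St (SS Γ × M) => x q ψ S :=
  (ev _).comp continuous_subtype_val

lemma xi : Function.Injective (x (M := M) q) := fun ψ φ h => Subtype.ext (DFunLike.ext _ _ fun f =>
  dense (co M) (coi M) (LinearMap.eqLocus (WeakDual.toStrongDual ψ.1).toLinearMap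
    (WeakDual.toStrongDual φ.1).toLinearMap) (isClosed_eq (WeakDual.toStrongDual ψ.1).continuous
    (WeakDual.toStrongDual φ.1).continuous) (fun S => by
      change ψ.1 _ = φ.1 _
      by_cases k : S.card = 0
      · rw [Finset.card_eq_zero.1 k]
        exact ψ.2.1.trans φ.2.1.symm
      · have := congrFun h S
        simp only [x, map_smul, W, k, if_false] at this
        exact mul_left_cancel₀ (W0 q S).ne' this) f)

lemma x1 (h : ∀ m ∈ M, Good q m) (ψ : St (SS Γ × M)) (T : Finset (Finset (Γ ⊕ I))) :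
    ∑ S ∈ T, x q ψ S ≤ 1 := by
  classical
  simp only [x, ← map_sum]
  refine St.le ψ.2 fun z => ?_
  set f : Γ ⊕ I → ℝ := fun j => w q j * if co M z j then 1 else 0
  have hf : ∀ j, 0 ≤ f j := fun j => mul_nonneg (w0 q j).le (by positivity)
  have : ∑ j ∈ T.biUnion id, f j ≤ 2 := by
    rw [Finset.sum_sum_eq_sum_toLeft_add_sum_toRight, ← one_add_one_eq_two]
    refine add_le_add ?_ (h _ z.2.2 _)
    simp only [f, w, Sum.elim_inl, Pi.one_apply, one_mul, Finset.sum_boole, Nat.cast_le_one]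
    exact Finset.card_le_one.2 fun a ha b hb =>
      z.1.2 _ _ (Finset.mem_filter.1 ha).2 (Finset.mem_filter.1 hb).2
  calc _ ≤ ∑ S ∈ T, Real.exp (-2) * ∏ i ∈ S, f i := ?_
    _ ≤ Real.exp (-2) * ∑ S ∈ (T.biUnion id).powerset, ∏ i ∈ S, f i := by
      rw [← Finset.mul_sum]
      exact mul_le_mul_of_nonneg_left (Finset.sum_le_sum_of_subset_of_nonneg
        (fun s hs => Finset.mem_powerset.2 (Finset.subset_biUnion_of_mem id hs))
        fun s _ _ => Finset.prod_nonneg fun i _ => hf i) (Real.exp_pos _).le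
    _ ≤ Real.exp (-2) * Real.exp 2 := by
      rw [← Finset.prod_one_add]
      exact mul_le_mul_of_nonneg_left ((Real.prod_one_add_le_exp_sum _ hf).trans
        (Real.exp_le_exp.2 this)) (Real.exp_pos _).le
    _ = 1 := by simp [← Real.exp_add]
  rw [ContinuousMap.sum_apply]
  refine Finset.sum_le_sum fun S _ => ?_
  rw [Finset.prod_mul_distrib, ← mul_assoc]
  refine mul_le_mul_of_nonneg_right ?_ (mon0 S _)
  unfold W
  split_ifs
  exacts [(W0 q S).le, le_rfl]

def Φ : Closeds (I → Bool) →o Closeds (I → Bool) where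
  toFun M := ⟨{σ | Good q σ} ∩ {σ | ∃ ψ : St (SS Γ × M), Cp q σ (x q ψ)}, by
    refine IsClosed.inter ?_ ?_
    · simp only [Good, ofPred_forall]
      exact isClosed_iInter fun F => isClosed_le (continuous_finsetSum _ fun i _ =>
        continuous_const.mul ((continuous_of_discreteTopology
          (f := fun b : Bool => if b then (1 : ℝ) else 0)).comp (continuous_apply i))) continuous_const
    · convert isClosedMap_fst_of_compactSpace _ (Cp.closed q (X := (I → Bool) × St (SS Γ × M))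
        continuous_fst fun S => (xc q S).comp continuous_snd)
      ext
      simp⟩
  monotone' M N h σ k := by
    obtain ⟨ψ, hψ⟩ := k.2
    let ι : C(SS Γ × M, SS Γ × N) := ⟨fun z => (z.1, ⟨z.2.1, h z.2.2⟩), by fun_prop⟩
    refine ⟨k.1, ⟨push ι ψ.1, St.push ι ψ.2⟩, ?_⟩
    rwa [show x q ⟨push ι ψ.1, St.push ι ψ.2⟩ = x q ψ from funext fun S =>
      (push_apply _ _ _).trans (congrArg ψ.1 (ContinuousMap.ext fun _ => rfl))]

lemma fix : ∃ M : Closeds (I → Bool), Nonempty M ∧ (∀ m ∈ M, Good q m) ∧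
    ∀ σ, σ ∈ M ↔ ∃ ψ : St (SS Γ × M), Cp q σ (x q ψ) := by
  have a : ∀ σ, σ ∈ (Φ q).gfp ↔ σ ∈ Φ q (Φ q).gfp := by rw [OrderHom.map_gfp]; simp
  have b : ∀ m ∈ (Φ q).gfp, Good q m := fun m h => ((a m).1 h).1
  refine ⟨_, ⟨⟨fun _ => false, (Φ q).le_gfp (a := {fun _ => false}) ?_ rfl⟩⟩, b, fun σ =>
    ⟨fun h => ((a σ).1 h).2, fun ⟨ψ, h⟩ => (a σ).2 ⟨h.good q (x0 q ψ) (x1 q b ψ), ψ, h⟩⟩⟩
  rintro _ rfl
  refine ⟨fun F => by simp, dl (⟨fun _ => false, fun _ _ h => by simp at h⟩, ⟨_, rfl⟩), fun i => ?_⟩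
  have : ∀ S, x q (M := {fun _ => false})
      (dl (⟨fun _ => false, fun _ _ h => by simp at h⟩, ⟨_, rfl⟩)) S = 0 := fun S => by
    change W q S * mon S _ = 0
    by_cases k : S.card = 0
    · simp [W, k]
    · obtain ⟨j, hj⟩ := Finset.card_ne_zero.1 k
      rw [mon_apply, Finset.prod_eq_zero hj, mul_zero]
      cases j <;> rfl
  have c : (0 : ℝ) ≤ (q i).2.unpair.1 := by positivity
  simp only [this, v, Bool.false_eq_true, if_false]
  linarith

lemma cover (h : ∀ σ, σ ∈ M ↔ ∃ ψ : St (SS Γ × M), Cp q σ (x q ψ)) :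
    ∃ (j : C(St (SS Γ × M), ℝ) →L[ℝ] C(M, ℝ)) (U : C(M, ℝ) →L[ℝ] C(St (SS Γ × M), ℝ)),
      ∀ f, U (j f) = f := by
  choose π hπ using fun σ : M => (h σ).1 σ.2
  have un : ∀ σ ψ, Cp q σ.1 (x q ψ) → π σ = ψ := fun σ ψ k =>
    xi q ((hπ σ).uniq q k (x0 q _) (x0 q _))
  have : Continuous π := continuous_iff_isClosed.2 fun C hC => by
    convert isClosedMap_fst_of_compactSpace _ ((Cp.closed q (X := M × St (SS Γ × M))
      (continuous_subtype_val.comp continuous_fst) fun S => (xc q S).comp continuous_snd).inter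
        (hC.preimage continuous_snd))
    ext σ
    exact ⟨fun k => ⟨(σ, π σ), ⟨hπ σ, k⟩, rfl⟩, fun ⟨z, k, e⟩ => by
      rw [← e, mem_preimage, un _ _ k.1]
      exact k.2⟩
  have _ : CompactSpace (M : Set (I → Bool)) := inferInstanceAs (CompactSpace M)
  obtain ⟨U, hU⟩ := avg (M : Set (I → Bool))
    (fun i => ⟨fun ψ => projIcc 0 1 zero_le_one (v (q i).2 (x q ψ (q i).1)), by
      have := xc (M := M) q (q i).1
      refine continuous_subtype_val.comp (continuous_projIcc.comp ?_)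
      unfold v
      fun_prop⟩) (fun _ _ => Subtype.prop _) ⟨π, this⟩ fun ψ σ k => by
    have : Cp q σ (x q ψ) := fun n => by
      have := k n
      cases k : σ n <;> simp only [k] at * <;> refine le_of_not_ge fun h => this ?_
      exacts [congrArg Subtype.val (projIcc_of_right_le zero_le_one h),
        congrArg Subtype.val (projIcc_of_le_left zero_le_one h)]
    exact ⟨(h σ).2 ⟨ψ, this⟩, un _ _ this⟩
  exact ⟨_, U, hU⟩

lemma nsep [Uncountable Γ] [Nonempty M] : ¬ SeparableSpace (St (SS Γ × M)) := fun _ => by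
  classical
  refine not_countable (Pairwise.countable_of_isOpen_disjoint (s := fun γ : Γ =>
    {ψ : St (SS Γ × M) | 1 / 2 < ψ.1 ((mon {.inl γ}).comp (co M))}) (fun a b h => disjoint_left.2
      fun ψ h1 h2 => ?_) (fun γ => isOpen_lt continuous_const ((ev _).comp continuous_subtype_val))
    fun γ => ⟨dl (⟨fun i => decide (i = γ), fun _ _ => by simp_all⟩, Classical.arbitrary _), by
      simp [mon_apply, co]; norm_num⟩)
  have := St.le ψ.2 (f := (mon {.inl a}).comp (co M) + (mon {.inl b}).comp (co M)) (a := 1) fun z => by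
    have := z.1.2 a b
    simp only [mon_apply, co, ContinuousMap.add_apply, ContinuousMap.comp_apply,
      Finset.prod_singleton, ContinuousMap.coe_mk, Sum.elim_inl]
    split_ifs <;> simp_all
  rw [map_add] at this
  rw [mem_ofPred_eq] at h1 h2
  linarith

theorem main : ∃ (E : Type) (_ : NormedAddCommGroup E) (_ : NormedSpace ℝ E) (_ : CompleteSpace E)
      (K : Set (WeakSpace ℝ E)),
      Convex ℝ K ∧ IsCompact K ∧ ¬ TopologicalSpace.MetrizableSpace (↥K) ∧
      ∃ (L : Type) (_ : TopologicalSpace L) (_ : CompactSpace L) (_ : T2Space L),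
        TotallyDisconnectedSpace L ∧ Nonempty (C(↥K, ℝ) ≃L[ℝ] C(L, ℝ)) := by
  obtain ⟨q⟩ : Nonempty (ℝ ≃ Finset (ℝ ⊕ ℝ) × ℕ) := Cardinal.eq.1 (by simp)
  obtain ⟨e⟩ : Nonempty (ℝ ≃ Option ℝ) := Cardinal.eq.1 (by simp)
  obtain ⟨M, m1, m2, m3⟩ := fix q
  obtain ⟨j, U, hU⟩ := cover q m3
  obtain ⟨Ψ, p1, p2⟩ := hil (x q (M := M)) (xc q) (x0 q) (x1 q m2)
  have emb := (p1.isClosedEmbedding fun a b h => xi q (funext fun S => by
    rw [← p2, h, p2])).isEmbedding
  obtain ⟨a⟩ := pel e j U hU (LinearMap.mkContinuous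
    { toFun := fun f => ⟨fun ψ => ψ.1 f, (ev f).comp continuous_subtype_val⟩
      map_add' := fun _ _ => ContinuousMap.ext fun ψ => map_add ψ.1 _ _
      map_smul' := fun _ _ => ContinuousMap.ext fun ψ => map_smul ψ.1 _ _ } 1 fun f => by
        rw [one_mul]
        exact (ContinuousMap.norm_le _ (norm_nonneg _)).2 fun ψ => St.abs ψ.2 f)
    (cp ⟨dl, dlc⟩) fun _ => rfl
  have cK := isCompact_range p1
  have := isCompact_iff_compactSpace.1 cK
  refine ⟨_, _, _, inferInstance, range Ψ, ?_, cK, fun _ => nsep (Γ := ℝ) (M := M) ?_,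
    SS ℝ × M, _, inferInstance, inferInstance, inferInstance,
    ⟨.trans (.equivOfInverse (cp emb.toHomeomorph) (cp emb.toHomeomorph.symm) (fun f => ?_)
      fun f => ?_) a⟩⟩
  · rintro _ ⟨ψ, rfl⟩ _ ⟨φ, rfl⟩ s t hs ht h
    have e : ∀ f, (s • ψ.1 + t • φ.1) f = s * ψ.1 f + t * φ.1 f := fun _ => rfl
    refine ⟨⟨s • ψ.1 + t • φ.1, by rw [e, ψ.2.1, φ.2.1]; simpa, fun f hf => by
      rw [e]
      exact add_nonneg (mul_nonneg hs (ψ.2.2 f hf)) (mul_nonneg ht (φ.2.2 f hf))⟩,
      (toWeakSpace ℝ _).symm.injective (lp.ext (funext fun S => ?_))⟩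
    rw [map_add, map_smul, map_smul, p2]
    simp only [lp.coeFn_add, lp.coeFn_smul, Pi.add_apply, Pi.smul_apply, p2]
    rfl
  · let := metrizableSpaceMetric (range Ψ)
    have := emb.toHomeomorph.secondCountableTopology
    infer_instance
  · ext
    simp
  · ext
    simp

end Pool.Agent.H.MP_6fa8f6_an
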